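import Mathlib

/-! Elementary facts on the equation `k! = 2 (m + 1) ⋯ (m + d)`. -/

namespace Pool.Agent.Lib.MP_343319_al.Rid

open Finset Nat

variable {k m d : ℕ}

theorem eq_choose (h : m ! * k ! = 2 * (m + d)!) : k ! = 2 * ((m + d).choose d * d !) := by
  refine Nat.eq_of_mul_eq_mul_left (factorial_pos m) ?_
  rw [h, ← add_choose_mul_factorial_mul_factorial m d]
  ring

theorem d_lt (h : k ! = 2 * ((m + d).choose d * d !)) : d < k := by
  by_contra hc
  have h1 := factorial_le (not_lt.1 hc)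
  have h2 := Nat.le_mul_of_pos_left (d !) (choose_pos (Nat.le_add_left d m))
  have h3 := factorial_pos d
  omega

theorem fact_val (h : k ! = 2 * ((m + d).choose d * d !)) {p : ℕ} (hp : p.Prime) :
    (k !).factorization p ≤ ((m + d).choose d).factorization p + d + 1 := by
  have c0 : (m + d).choose d ≠ 0 := (choose_pos (Nat.le_add_left d m)).ne'
  rw [h, Nat.factorization_mul two_ne_zero (mul_ne_zero c0 (factorial_ne_zero d)),
    Nat.factorization_mul c0 (factorial_ne_zero d)]
  have h1 := (factorization_factorial_le_div_pred hp d).trans (Nat.div_le_self _ _)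
  have h2 : (2 : ℕ).factorization p < 2 := factorization_lt p two_ne_zero
  simp only [Finsupp.add_apply]
  omega

theorem div_le_val {p : ℕ} (hp : p.Prime) (k : ℕ) : k / p ≤ (k !).factorization p := by
  rw [factorization_factorial hp (b := log p k + 2) (by omega)]
  simpa using single_le_sum (f := fun i => k / p ^ i) (s := Ico 1 (log p k + 2))
    (fun _ _ => Nat.zero_le _) (a := 1) (by simp)

theorem two_val (k : ℕ) : k ≤ (k !).factorization 2 + log 2 k + 1 := by
  rcases eq_or_ne k 0 with rfl | k0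
  · simp
  have := Fact.mk prime_two
  have h1 := sub_one_mul_padicValNat_factorial (p := 2) k
  have h2 := List.sum_le_card_nsmul (digits 2 k) 1 fun x hx =>
    Nat.lt_succ_iff.1 (digits_lt_base one_lt_two hx)
  rw [length_digits 2 k one_lt_two k0, smul_eq_mul] at h2
  rw [factorization_def _ prime_two]
  omega

theorem two_pow_le_choose : ∀ {d : ℕ}, d ≤ m → 2 ^ d ≤ (m + d).choose d
  | 0, _ => by simp
  | d + 1, h => by
    have h1 := two_pow_le_choose (d := d) (by omega)
    have h2 := add_one_mul_choose_eq (m + d) d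
    refine le_of_mul_le_mul_right ?_ (Nat.succ_pos d)
    rw [← add_assoc, ← h2, pow_succ, mul_assoc, mul_comm]
    exact Nat.mul_le_mul (by omega) h1

/-- the smaller factorial is of polylogarithmic degree -/
theorem k_le (h : k ! = 2 * ((m + d).choose d * d !)) (hk : k ≤ m) :
    k ≤ 4 * (log 2 (m + d) + 1) ^ 2 := by
  set L := log 2 (m + d)
  have h0 := d_lt h
  have h1 : k ≤ d + 2 * (L + 1) := by
    have a1 := two_val k
    have a2 := fact_val h prime_two
    have a3 : ((m + d).choose d).factorization 2 ≤ L := factorization_choose_le_log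
    have a4 : log 2 k ≤ L := log_mono_right (by omega)
    omega
  obtain ⟨t, rfl⟩ := Nat.exists_eq_add_of_le h0.le
  have h2 : (m + d).choose d ≤ (d + t) ^ t := by
    refine le_of_mul_le_mul_left ?_ (factorial_pos d)
    refine le_trans ?_ (Nat.mul_le_mul_left _ (ascFactorial_le_pow_add d t))
    rw [factorial_mul_ascFactorial, h, mul_comm]
    omega
  have h3 : d + t ≤ 2 ^ (L + 1) :=
    le_trans (by omega) (lt_pow_succ_log_self one_lt_two (m + d)).le
  have h4 : 2 ^ d ≤ 2 ^ ((L + 1) * t) := by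
    rw [pow_mul]
    exact (two_pow_le_choose (by omega)).trans (h2.trans (Nat.pow_le_pow_left h3 t))
  have h5 := (Nat.pow_le_pow_iff_right one_lt_two).1 h4
  have h6 := Nat.mul_le_mul_left (L + 1) (by omega : t ≤ 2 * (L + 1))
  nlinarith

theorem pow_le_pow (h : k ! = 2 * ((m + d).choose d * d !)) : (m + 1) ^ d ≤ k ^ k := by
  refine (pow_succ_le_ascFactorial _ _).trans (le_trans ?_ (factorial_le_pow k))
  rw [ascFactorial_eq_factorial_mul_choose, h, mul_comm]
  omega

/-- the prime power in a binomial coefficient divides one of the factors of the numerator -/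
theorem kummer {p : ℕ} (hp : p.Prime) (m : ℕ) (hd : 0 < d) :
    ∃ j, 0 < j ∧ j ≤ d ∧ p ^ ((m + d).choose d).factorization p ∣ m + j := by
  rw [factorization_choose' hp (Nat.lt_succ_self _)]
  set I := {i ∈ Ico 1 (log p (m + d)).succ | p ^ i ≤ d % p ^ i + m % p ^ i}
  rcases I.eq_empty_or_nonempty with e | e
  · exact ⟨1, one_pos, hd, by simp [e]⟩
  obtain ⟨i, hi, hmax⟩ := I.exists_max_image id e
  have h1 : I.card ≤ i := by
    refine (card_le_card (t := Icc 1 i) fun x hx => mem_Icc.2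
      ⟨(mem_Ico.1 (mem_filter.1 hx).1).1, hmax x hx⟩).trans (by simp)
  have h2 := (mem_filter.1 hi).2
  have h3 := Nat.mod_lt m (pow_pos hp.pos i)
  have h4 := Nat.mod_le d (p ^ i)
  refine ⟨p ^ i - m % p ^ i, by omega, by omega, (pow_dvd_pow p h1).trans ⟨m / p ^ i + 1, ?_⟩⟩
  have := Nat.div_add_mod m (p ^ i)
  rw [mul_add, mul_one]
  omega

theorem near_prime (h : k ! = 2 * ((m + d).choose d * d !)) (hd : 0 < d) {p : ℕ} (hp : p.Prime)
    (hk : 2 * (p * (d + 2)) ≤ k) : ∃ j e, 0 < j ∧ j ≤ d ∧ p ^ e ∣ m + j ∧ k ≤ 2 * (p * e) := by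
  obtain ⟨j, j0, j1, j2⟩ := kummer hp m hd
  refine ⟨j, _, j0, j1, j2, ?_⟩
  have h1 := (div_le_val hp k).trans (fact_val h hp)
  have h2 := Nat.lt_mul_div_succ k hp.pos
  have h3 := Nat.mul_le_mul_left p (Nat.succ_le_succ h1)
  have e : p * (((m + d).choose d).factorization p + d + 1).succ =
      p * ((m + d).choose d).factorization p + p * (d + 2) := by rw [succ_eq_add_one]; ring
  rw [succ_eq_add_one] at h3
  omega

theorem cube_le : ∀ y, 10 ≤ y → y ^ 3 ≤ 2 ^ y := by
  intro y hy
  induction y, hy using Nat.le_induction with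
  | base => norm_num
  | succ y hy ih =>
    have h1 : 10 * y ^ 2 ≤ y ^ 3 := by rw [pow_succ' y 2]; exact Nat.mul_le_mul_right _ hy
    have h2 : 10 * y ≤ y ^ 2 := by rw [sq]; exact Nat.mul_le_mul_right _ hy
    have e : (y + 1) ^ 3 = y ^ 3 + 3 * y ^ 2 + 3 * y + 1 := by ring
    rw [pow_succ 2]
    omega

theorem poly_le (C : ℕ) {Q : ℕ} (hQ : 0 < Q) :
    ∃ L0, ∀ L, L0 ≤ L → 0 < L / Q ∧ C * (L + 1) ^ 2 ≤ 2 ^ (L / Q) := by
  refine ⟨(10 + 4 * C * Q ^ 2) * Q, fun L hL => ?_⟩
  have h1 := (Nat.le_div_iff_mul_le hQ).2 hL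
  have h2 : L + 1 ≤ Q * (L / Q + 1) := Nat.lt_mul_div_succ L hQ
  generalize L / Q = y at h1 h2
  refine ⟨by omega, le_trans ?_ (cube_le y (by omega))⟩
  have h3 : L + 1 ≤ Q * (2 * y) := h2.trans (Nat.mul_le_mul_left _ (by omega))
  calc C * (L + 1) ^ 2 ≤ C * (Q * (2 * y)) ^ 2 := Nat.mul_le_mul_left _ (Nat.pow_le_pow_left h3 2)
    _ = 4 * C * Q ^ 2 * y ^ 2 := by ring
    _ ≤ y * y ^ 2 := Nat.mul_le_mul_right _ (by omega)
    _ = y ^ 3 := by ring

theorem exists_primes (K : ℝ) : ∃ S : Finset ℕ, (∀ p ∈ S, p.Prime) ∧ K < ∑ p ∈ S, 1 / (p : ℝ) := by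
  by_contra hc
  push Not at hc
  refine Nat.Primes.not_summable_one_div (summable_of_sum_le (c := K) (fun p => by positivity)
    fun s => ?_)
  have := hc (s.map ⟨Subtype.val, Subtype.val_injective⟩) fun p hp => by
    obtain ⟨q, -, rfl⟩ := mem_map.1 hp
    exact q.2
  exact le_trans (le_of_eq (sum_map s ⟨Subtype.val, Subtype.val_injective⟩
    fun p : ℕ => 1 / (p : ℝ)).symm) this

end Pool.Agent.Lib.MP_343319_al.Rid
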