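import Pool.Agent.Lib.MP_343319_al.Rid.Poly

/-! A theorem of Roth-Ridout type with moving rational targets and a weak exponent. -/

namespace Pool.Agent.Lib.MP_343319_al.Rid

open MvPolynomial Finset Pool.Agent.Lib.MP_5591bc_ag.R

noncomputable section

/-- `q` has about `w` binary digits and is `p`-adically close to the small integers `b p` -/
structure Near (S : Finset ℕ) (t : ℕ → ℝ) (M q w u : ℕ) (b : ℕ → ℤ) : Prop where
  pos : 0 < q
  lo : 2 ^ w ≤ q ^ 2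
  hi : q ≤ 2 ^ w
  small : M * (u + 3) ≤ w
  uq : ∀ p ∈ S, ¬ p ∣ q
  ub : ∀ p ∈ S, ¬ (p : ℤ) ∣ b p
  le : ∀ p ∈ S, |b p| ≤ 2 ^ u
  near : ∀ p ∈ S, ((padicNorm p ((q : ℚ) - b p) : ℚ) : ℝ) ≤ t p ^ w

theorem norm_unit {p : ℕ} [Fact p.Prime] {b : ℤ} (h : ¬ (p : ℤ) ∣ b) : ‖(b : ℚ_[p])‖ = 1 :=
  le_antisymm (IsUltrametricDist.norm_intCast_le_one _ _)
    (not_lt.1 fun hl => h ((Padic.norm_intCast_lt_one_iff).1 hl))

theorem norm_inv_sub {p : ℕ} [Fact p.Prime] {q b : ℤ} (hq : ¬ (p : ℤ) ∣ q) (hb : ¬ (p : ℤ) ∣ b) :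
    ‖((1 / (q : ℚ) - 1 / (b : ℚ) : ℚ) : ℚ_[p])‖ = padicNorm p ((q : ℚ) - b) := by
  have q0 : (q : ℚ) ≠ 0 := Int.cast_ne_zero.2 fun e => hq (e ▸ dvd_zero _)
  have b0 : (b : ℚ) ≠ 0 := Int.cast_ne_zero.2 fun e => hb (e ▸ dvd_zero _)
  have e : 1 / (q : ℚ) - 1 / (b : ℚ) = -((q : ℚ) - b) / (q * b) := by field_simp; ring
  rw [e, ← Padic.eq_padicNorm, Rat.cast_div, Rat.cast_neg, Rat.cast_mul, norm_div, norm_neg,
    norm_mul, Rat.cast_intCast, Rat.cast_intCast, norm_unit hq, norm_unit hb]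
  simp

theorem final_num {m E h : ℕ} (hm : 0 < m) {r w : Fin m → ℕ} (hh : h ≤ 32 * E)
    (hw : ∀ i, 0 < w i) (hr : ∀ i, r i * w i ≤ 32 * E) :
    (2 : ℝ) ^ h * ∏ i, (2 * 2 ^ w i) ^ r i ≤ (2 ^ 96) ^ (m * E) := by
  have e : ∏ i, (2 * 2 ^ w i : ℝ) ^ r i = 2 ^ ∑ i, (w i + 1) * r i := by
    rw [← prod_pow_eq_pow_sum]
    exact prod_congr rfl fun i _ => by rw [pow_mul, pow_succ']
  rw [e, ← pow_add, ← pow_mul]
  refine pow_le_pow_right₀ one_le_two ?_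
  have : ∑ i, (w i + 1) * r i ≤ m * (64 * E) := by
    refine (sum_le_card_nsmul _ _ (64 * E) fun i _ => ?_).trans (by simp)
    have := hr i
    have := Nat.mul_le_mul_left (r i) (hw i)
    nlinarith
  nlinarith

theorem core (S : Finset ℕ) (hS : ∀ p ∈ S, p.Prime) (t : ℕ → ℝ) (t0 : ∀ p ∈ S, 0 ≤ t p)
    (t1 : ∀ p ∈ S, t p ≤ 1) (ht : 2 ^ 96 * ∏ p ∈ S, t p < 1) {m : ℕ} (m0 : 0 < m)
    (hm : 2 * S.card ≤ 2 ^ m) : ∃ M, 0 < M ∧ ∀ (q w u : Fin m → ℕ) (b : Fin m → ℕ → ℤ),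
      (∀ i j, i < j → M * w j ≤ w i) → ¬ ∀ i, Near S t M (q i) (w i) (u i) (b i) := by
  obtain ⟨Λ, Λ0, hΛ⟩ := roth m 32 (by norm_num)
  have S0 : S.Nonempty := nonempty_iff_ne_empty.2 fun e => by rw [e] at ht; norm_num at ht
  refine ⟨m * Λ, by positivity, fun q w u b hw H => ?_⟩
  have hΛw : ∀ i, Λ ≤ w i := fun i => le_trans ((Nat.le_mul_of_pos_left _ m0).trans
    (Nat.le_mul_of_pos_right _ (Nat.succ_pos _))) (H i).small
  have w0 : ∀ i, 0 < w i := fun i => Λ0.trans_le (hΛw i)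
  obtain ⟨E, hE⟩ : ∃ E, ∀ i, w i ≤ E :=
    ⟨∑ i, w i, fun i => single_le_sum (fun _ _ => Nat.zero_le _) (mem_univ i)⟩
  have E0 : 0 < E := (w0 ⟨0, m0⟩).trans_le (hE _)
  obtain ⟨r, r1, r2⟩ : ∃ r : Fin m → ℕ, (∀ i, r i * w i ≤ 32 * E) ∧ ∀ i, 32 * E ≤ w i * (r i + 1) :=
    ⟨fun i => 32 * E / w i, fun i => Nat.div_mul_le_self _ _,
      fun i => (Nat.lt_mul_div_succ _ (w0 i)).le⟩
  have b0 : ∀ p ∈ S, ∀ i, b i p ≠ 0 := fun p hp i e => (H i).ub p hp (e ▸ dvd_zero _)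
  obtain ⟨F, F0, F1, F2, F3, F4⟩ := aux (σ := Fin m) S S0 (by rwa [Fintype.card_fin])
    (E := 32 * E) (T := 2 * m * E) (by positivity) (by positivity) w0 r2
    (fun i => by
      refine le_of_mul_le_mul_left ?_ (w0 i)
      have := hE i
      have := r2 i
      omega)
    (by rw [Fintype.card_fin]; exact le_of_eq (by ring)) (b := fun p i => b i p) b0
    fun p hp i => (H i).le p hp
  have hh : Λ * ∑ i, (u i + 3) * r i ≤ 32 * E := by
    refine le_of_mul_le_mul_left ?_ m0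
    rw [← mul_assoc, mul_sum]
    refine (sum_le_card_nsmul _ _ (32 * E) fun i _ => ?_).trans (by simp)
    rw [← mul_assoc, mul_comm]
    exact (Nat.mul_le_mul_left _ (H i).small).trans (r1 i)
  have hv := hΛ w (fun i => 1 / ((q i : ℤ) : ℚ)) (32 * E) _ F F0 F1
    (fun i j hij => (Nat.mul_le_mul_right _ (Nat.le_mul_of_pos_left _ m0)).trans (hw i j hij))
    (fun i => by
      rw [Int.cast_natCast, one_div, Rat.inv_natCast_den_of_pos (H i).pos]
      exact (H i).lo) hΛw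
    (fun i => (Nat.mul_le_mul_right _ (F2 i)).trans (r1 i)) F3 hh
  simp only [Vn, not_forall, coeff_coe] at hv
  obtain ⟨μ, μ1, μ2⟩ := hv
  rw [Nat.mul_div_cancel_left _ (by norm_num)] at μ1
  have q0 : ∀ i, (q i : ℤ) ≠ 0 := fun i => Int.natCast_ne_zero.2 (H i).pos.ne'
  obtain ⟨A, A1, A2⟩ := glob (B := fun i => 2 ^ w i) q0 (fun i => one_le_pow₀ one_le_two)
    (fun i => by exact_mod_cast (H i).hi) F1 F2 μ
  have A0 : A ≠ 0 := fun e => by
    rw [e, Int.cast_zero] at A1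
    exact mul_ne_zero μ2 (prod_ne_zero_iff.2 fun i _ =>
      pow_ne_zero _ (Int.cast_ne_zero.2 (q0 i))) A1
  have A3 : |(A : ℝ)| ≤ (2 ^ 96) ^ (m * E) :=
    (A2.trans (mul_le_mul_of_nonneg_right F3 (by positivity))).trans
      (final_num m0 ((Nat.le_mul_of_pos_left _ Λ0).trans hh) w0 r1)
  have A4 : ∀ p ∈ S, ((padicNorm p A : ℚ) : ℝ) ≤ t p ^ (m * E) := fun p hp => by
    have := Fact.mk (hS p hp)
    have uq : ∀ i, ¬ (p : ℤ) ∣ q i := fun i h => (H i).uq p hp (Int.natCast_dvd_natCast.1 h)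
    have h1 := loc (p := p) F1 (ξ := fun i => 1 / ((q i : ℤ) : ℚ))
      (α := fun i => 1 / (b i p : ℚ)) (t0 p hp) (t1 p hp)
      (fun i => by simp [norm_unit ((H i).ub p hp)])
      (fun i => by
        rw [norm_inv_sub (uq i) ((H i).ub p hp)]
        exact (H i).near p hp) (F4 p hp) μ
    rw [← Padic.eq_padicNorm, ← A1, Rat.cast_mul, norm_mul, Rat.cast_prod, norm_prod,
      prod_eq_one fun i _ => by
        rw [Rat.cast_pow, norm_pow, Rat.cast_intCast, norm_unit (uq i), one_pow], mul_one]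
    refine h1.trans (pow_le_pow_of_le_one (t0 p hp) (t1 p hp) ?_)
    have := Nat.le_mul_of_pos_left E m0
    rw [mul_assoc]
    omega
  have fin := (prod_formula S hS A0).trans (mul_le_mul A3 (prod_le_prod
    (fun p _ => by exact_mod_cast padicNorm.nonneg _) A4)
    (prod_nonneg fun p _ => by exact_mod_cast padicNorm.nonneg _) (by positivity))
  rw [prod_pow, ← mul_pow] at fin
  exact absurd fin (not_le.2 (pow_lt_one₀ (mul_nonneg (by positivity) (prod_nonneg t0)) ht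
    (by positivity)))

/-- Roth-Ridout with moving targets: the good simultaneous approximations are bounded -/
theorem ridout (S : Finset ℕ) (hS : ∀ p ∈ S, p.Prime) (t : ℕ → ℝ) (t0 : ∀ p ∈ S, 0 ≤ t p)
    (t1 : ∀ p ∈ S, t p ≤ 1) (ht : 2 ^ 96 * ∏ p ∈ S, t p < 1) :
    ∃ M W : ℕ, ∀ q w u b, Near S t M q w u b → w ≤ W := by
  obtain ⟨M, M0, hM⟩ := core S hS t t0 t1 ht S.card.succ_pos
    (by rw [pow_succ']; exact Nat.mul_le_mul_left _ Nat.lt_two_pow_self.le)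
  refine ⟨M, ?_⟩
  by_contra hc
  push Not at hc
  choose q w u b h1 h2 using hc
  obtain ⟨s, s1⟩ : ∃ s : ℕ → ℕ, ∀ n, s (n + 1) = M * w (s n) :=
    ⟨fun n => Nat.rec 0 (fun _ x => M * w x) n, fun _ => rfl⟩
  have mono : Monotone fun n => w (s n) := monotone_nat_of_le_succ fun n =>
    (Nat.le_mul_of_pos_left _ M0).trans ((s1 n).ge.trans (h2 _).le)
  refine hM (fun i => q (s (S.card - i))) (fun i => w (s (S.card - i)))
    (fun i => u (s (S.card - i))) (fun i => b (s (S.card - i))) (fun i j hij => ?_) fun i => h1 _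
  have := j.2
  have hij' : (i : ℕ) < j := hij
  exact ((s1 _).ge.trans (h2 _).le).trans (mono (by omega : S.card - j + 1 ≤ S.card - i))

end

end Pool.Agent.Lib.MP_343319_al.Rid
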