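import Pool.Agent.Lib.MP_343319_al.Rid.Core
import Pool.Agent.Lib.MP_343319_al.Rid.Arith

/-! The equation `m! k! = 2 n!`: `k = o(log n)` and `n - m = o(log log n)`. -/

namespace Pool.Agent.Lib.MP_343319_al.Rid

open Finset Nat

theorem norm_le_of_dvd {p e w D : ℕ} (hp : p.Prime) (hD : 0 < D) {z : ℤ} (h : (p : ℤ) ^ e ∣ z)
    (hw : w ≤ D * p * e) : ((padicNorm p z : ℚ) : ℝ) ≤ ((2 : ℝ) ^ (-(1 / (D * p) : ℝ))) ^ w := by
  have := Fact.mk hp
  have p2 : (2 : ℝ) ≤ p := by exact_mod_cast hp.two_le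
  have D0 : (0 : ℝ) < D := by exact_mod_cast hD
  have h1 : ((padicNorm p z : ℚ) : ℝ) ≤ ((p : ℝ) ^ e)⁻¹ := by
    have := padicNorm.dvd_iff_norm_le.1 (show ((p ^ e : ℕ) : ℤ) ∣ z by exact_mod_cast h)
    rw [zpow_neg, zpow_natCast] at this
    simpa using (Rat.cast_le (K := ℝ)).2 this
  refine (h1.trans (inv_anti₀ (by positivity) (pow_le_pow_left₀ zero_le_two p2 e))).trans ?_
  rw [← Real.rpow_natCast, ← Real.rpow_natCast, ← Real.rpow_neg zero_le_two,
    ← Real.rpow_mul zero_le_two]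
  refine Real.rpow_le_rpow_of_exponent_le one_le_two ?_
  have : (w : ℝ) ≤ D * p * e := by exact_mod_cast hw
  rw [neg_mul, neg_le_neg_iff, one_div, inv_mul_le_iff₀ (by positivity)]
  exact this

theorem prod_small {D : ℕ} (hD : 0 < D) {S : Finset ℕ} (h : (96 * D : ℝ) < ∑ p ∈ S, 1 / (p : ℝ)) :
    2 ^ 96 * ∏ p ∈ S, (2 : ℝ) ^ (-(1 / (D * p) : ℝ)) < 1 := by
  have D0 : (0 : ℝ) < D := by exact_mod_cast hD
  rw [← Real.rpow_sum_of_pos two_pos, ← Real.rpow_natCast, ← Real.rpow_add two_pos]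
  refine Real.rpow_lt_one_of_one_lt_of_neg one_lt_two ?_
  have e : ∑ p ∈ S, -(1 / (D * p) : ℝ) = -((∑ p ∈ S, 1 / (p : ℝ)) / D) := by
    rw [sum_div, ← sum_neg_distrib]
    exact sum_congr rfl fun p _ => by rw [div_div, mul_comm]
  rw [e, add_neg_lt_iff_lt_add, zero_add, lt_div_iff₀ D0]
  exact_mod_cast h

/-- `k = o(log n)` -/
theorem k_small {D : ℕ} (hD : 0 < D) : ∃ L0, ∀ k m d : ℕ, k ! = 2 * ((m + d).choose d * d !) →
    k ≤ m → 0 < d → L0 ≤ log 2 (m + d) → D * k ≤ log 2 (m + d) := by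
  obtain ⟨S, hS, hK⟩ := exists_primes (96 * (4 * D : ℕ))
  obtain ⟨M, W, hW⟩ := ridout S hS (fun p => (2 : ℝ) ^ (-(1 / ((4 * D : ℕ) * p) : ℝ)))
    (fun p _ => by positivity)
    (fun p _ => Real.rpow_le_one_of_one_le_of_nonpos one_le_two (neg_nonpos.2 (by positivity)))
    (prod_small (by positivity) hK)
  obtain ⟨N, N2, hN⟩ : ∃ N, 2 ≤ N ∧ ∀ p ∈ S, p ∣ N :=
    ⟨2 * ∏ p ∈ S, p, Nat.le_mul_of_pos_right _ (prod_pos fun p hp => (hS p hp).pos),
      fun p hp => (dvd_prod_of_mem _ hp).mul_left _⟩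
  obtain ⟨L0, hL0⟩ := poly_le (4 * N) (Q := 8 * N + 4 * M) (by omega)
  refine ⟨L0 + W + (N + 2) + D * (8 * N), fun k m d h hk hd hL => ?_⟩
  by_contra hc
  have a1 := k_le h hk
  have a2 := d_lt h
  have a3 : 2 ^ log 2 (m + d) ≤ m + d := pow_log_le_self 2 (by omega)
  have a4 : m + d < 2 ^ (log 2 (m + d) + 1) := lt_pow_succ_log_self one_lt_two _
  generalize log 2 (m + d) = L at hL hc a1 a3 a4
  obtain ⟨y0, hy⟩ := hL0 L (by omega)
  have a5 := Nat.mul_div_le L (8 * N + 4 * M)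
  generalize L / (8 * N + 4 * M) = y at y0 hy a5
  have a6 : N * k ≤ 2 ^ y := le_trans (by nlinarith) hy
  have a7 : 8 * N ≤ k := le_of_mul_le_mul_left (by omega) hD
  have a8 : 4 * N * d ≤ k := by
    have b1 : 2 ^ (4 * N * y + 1) ≤ 2 ^ L := Nat.pow_le_pow_right two_pos (by nlinarith)
    have b2 : 2 ^ (4 * N * y) ≤ m + 1 := by rw [pow_succ] at b1; omega
    have b3 : k ≤ 2 ^ y := le_trans (Nat.le_mul_of_pos_left _ (by omega)) a6
    have b4 := ((Nat.pow_le_pow_left b2 d).trans (pow_le_pow h)).trans (Nat.pow_le_pow_left b3 k)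
    rw [← pow_mul, ← pow_mul, Nat.pow_le_pow_iff_right one_lt_two] at b4
    exact le_of_mul_le_mul_left (by nlinarith) y0
  have c : ∀ p ∈ S, ∃ j e, 0 < j ∧ j ≤ d ∧ p ^ e ∣ m + j ∧ k ≤ 2 * (p * e) := fun p hp =>
    near_prime h hd (hS p hp) (by
      have := Nat.mul_le_mul_right (d + 2) (Nat.le_of_dvd (by omega) (hN p hp))
      nlinarith)
  choose! j e j0 j1 j2 j3 using c
  have m2 : 2 * m ≤ N * m := Nat.mul_le_mul_right _ N2
  have w1 : L < size (N * m + 1) := lt_size.2 (by omega)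
  have w2 : size (N * m + 1) ≤ 2 * L := by
    refine size_le.2 (lt_of_lt_of_le ?_ (Nat.pow_le_pow_right two_pos
      (by omega : N + (L + 1) ≤ 2 * L)))
    have := Nat.mul_le_mul (Nat.lt_two_pow_self (n := N)) (by omega : m + 1 ≤ 2 ^ (L + 1))
    rw [pow_add]
    nlinarith
  have w3 : 2 ^ size (N * m + 1) ≤ (N * m + 1) ^ 2 := by
    obtain ⟨v, hv⟩ := Nat.exists_eq_add_one_of_ne_zero (by omega : size (N * m + 1) ≠ 0)
    have := lt_size.1 (by omega : v < size (N * m + 1))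
    rw [hv, pow_succ, sq]
    exact Nat.mul_le_mul this (by omega)
  refine absurd (hW (N * m + 1) (size (N * m + 1)) y (fun p => 1 - N * j p)
    ⟨succ_pos _, w3, (lt_size_self _).le, by nlinarith, fun p hp hd => ?_, fun p hp hd => ?_,
      fun p hp => ?_, fun p hp => ?_⟩) (by omega)
  · exact (hS p hp).one_lt.ne' (Nat.dvd_one.1 ((Nat.dvd_add_right ((hN p hp).mul_right m)).1 hd))
  · have := dvd_add hd ((Int.natCast_dvd_natCast.2 (hN p hp)).mul_right (j p))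
    rw [sub_add_cancel] at this
    exact (hS p hp).one_lt.ne' (Nat.dvd_one.1 (by exact_mod_cast this))
  · have b1 : N * j p ≤ 2 ^ y := (Nat.mul_le_mul_left _ ((j1 p hp).trans a2.le)).trans a6
    have b2 : 0 < N * j p := Nat.mul_pos (by omega) (j0 p hp)
    have b3 : ((N * j p : ℕ) : ℤ) ≤ 2 ^ y := by exact_mod_cast b1
    have b4 : (0 : ℤ) < (N * j p : ℕ) := by exact_mod_cast b2
    push_cast at b3 b4
    rw [abs_le]
    constructor <;> linarith
  · have e1 : ((N * m + 1 : ℕ) : ℚ) - ((1 - N * j p : ℤ) : ℚ) = ((N * (m + j p : ℕ) : ℤ) : ℚ) := by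
      push_cast; ring
    rw [e1]
    refine norm_le_of_dvd (e := e p) (hS p hp) (by positivity)
      (Dvd.dvd.mul_left (by exact_mod_cast j2 p hp) _) ?_
    calc size (N * m + 1) ≤ 4 * (D * k) / 2 := by omega
      _ ≤ 4 * (D * (2 * (p * e p))) / 2 := by gcongr; exact j3 p hp
      _ = 4 * D * p * e p := Nat.div_eq_of_eq_mul_left two_pos (by ring)

/-- `n - m = o(log log n)` -/
theorem gap (ε : ℝ) (hε : 0 < ε) : ∃ N : ℕ, ∀ k m d : ℕ, m ! * k ! = 2 * (m + d)! → k ≤ m →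
    0 < d → N ≤ m + d → (d : ℝ) ≤ ε * Real.log (Real.log (m + d : ℕ)) := by
  obtain ⟨D, hD⟩ := exists_nat_ge (2 / ε + 2)
  have D2 : (2 : ℝ) ≤ D := by linarith [div_pos two_pos hε]
  obtain ⟨L0, hL0⟩ := k_small (D := D) (by exact_mod_cast two_pos.trans_le D2)
  refine ⟨2 ^ (L0 + 4), fun k m d h hk hd hN => ?_⟩
  have h' := eq_choose h
  have a0 := le_log_of_pow_le one_lt_two hN
  have a1 := hL0 k m d h' hk hd (by omega)
  have a2 := d_lt h'
  have a3 : 2 ^ log 2 (m + d) ≤ m + d := pow_log_le_self 2 (by omega)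
  generalize log 2 (m + d) = L at a0 a1 a3
  obtain ⟨L, rfl⟩ := Nat.exists_eq_add_one_of_ne_zero (by omega : L ≠ 0)
  have a4 : 2 ^ (L * d) ≤ k ^ k := by
    rw [pow_mul]
    refine (Nat.pow_le_pow_left ?_ d).trans (pow_le_pow h')
    rw [pow_succ] at a3
    omega
  have k1 : (1 : ℝ) ≤ k := by exact_mod_cast (by omega : 1 ≤ k)
  have L3 : (3 : ℝ) ≤ L := by exact_mod_cast (by omega : 3 ≤ L)
  have d0 : (0 : ℝ) ≤ d := by positivity
  have l2 := Real.log_two_gt_d9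
  have b1 : (D * k : ℝ) ≤ L + 1 := by exact_mod_cast a1
  have b2 : (L * d : ℝ) * Real.log 2 ≤ k * Real.log k := by
    have := Real.log_le_log (by positivity) (show (2 : ℝ) ^ (L * d) ≤ k ^ k by exact_mod_cast a4)
    rw [Real.log_pow, Real.log_pow] at this
    exact_mod_cast this
  have b3 : (L + 1 : ℝ) * Real.log 2 ≤ Real.log (m + d : ℕ) := by
    have := Real.log_le_log (by positivity)
      (show (2 : ℝ) ^ (L + 1) ≤ (m + d : ℕ) by exact_mod_cast a3)
    rw [Real.log_pow] at this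
    exact_mod_cast this
  have b4 : Real.log k ≤ Real.log (Real.log (m + d : ℕ)) :=
    Real.log_le_log (by linarith) (by nlinarith)
  have b5 := Real.log_nonneg k1
  have b6 : (2 : ℝ) ≤ ε * D := by
    rw [mul_comm, ← div_le_iff₀ hε]; linarith
  refine le_trans ?_ (mul_le_mul_of_nonneg_left b4 hε.le)
  have b7 : (L + 1 : ℝ) ≤ 2 * (L * Real.log 2) := by nlinarith
  have b8 : 2 * (k : ℝ) ≤ ε * (L + 1) := by nlinarith
  refine le_of_mul_le_mul_left ?_ (by positivity : (0 : ℝ) < L + 1)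
  calc (L + 1 : ℝ) * d ≤ 2 * (L * Real.log 2) * d := mul_le_mul_of_nonneg_right b7 d0
    _ = 2 * (L * d * Real.log 2) := by ring
    _ ≤ 2 * k * Real.log k := by linarith
    _ ≤ ε * (L + 1) * Real.log k := mul_le_mul_of_nonneg_right b8 b5
    _ = _ := by ring

theorem card_alt {n : ℕ} (hn : 2 ≤ n) : 2 * Nat.card (alternatingGroup (Fin n)) = n ! := by
  have : Nontrivial (Fin n) := Fin.nontrivial_iff_two_le.2 hn
  rw [two_mul_nat_card_alternatingGroup, Nat.card_perm, Nat.card_fin]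

theorem gap_alt (ε : ℝ) (hε : 0 < ε) : ∃ N : ℕ, ∀ k m n : ℕ, 5 ≤ k → k ≤ m → N ≤ n →
    Nat.card (alternatingGroup (Fin m)) * Nat.card (alternatingGroup (Fin k)) =
      Nat.card (alternatingGroup (Fin n)) → (n : ℝ) - m ≤ ε * Real.log (Real.log n) := by
  obtain ⟨N, hN⟩ := gap ε hε
  refine ⟨N + 2, fun k m n h5 hk hn h => ?_⟩
  have e : m ! * k ! = 2 * n ! := by
    rw [← card_alt (by omega : 2 ≤ m), ← card_alt (by omega : 2 ≤ k), ← card_alt (by omega : 2 ≤ n),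
      ← h]
    ring
  have lt : m < n := by
    by_contra hc
    have h1 := factorial_le (not_lt.1 hc)
    have h2 := Nat.mul_le_mul_left (m !) (h5.trans (self_le_factorial k))
    have h3 := factorial_pos m
    omega
  obtain ⟨d, rfl⟩ := Nat.exists_eq_add_of_le lt.le
  have := hN k m d e hk (by omega) (by omega)
  push_cast at this ⊢
  linarith

end Pool.Agent.Lib.MP_343319_al.Rid
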