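import Pool.Agent.Lib.MP_343319_al.Rid.Shift

/-! The auxiliary polynomial vanishing to high order at several rational points. -/

namespace Pool.Agent.Lib.MP_343319_al.Rid

open MvPolynomial Finset Pool.Agent.Lib.MP_5591bc_ag.R

noncomputable section

variable {σ : Type*} [Fintype σ] [DecidableEq σ]

attribute [local instance] Matrix.seminormedAddCommGroup in
theorem siegel {α β : Type*} [Fintype α] [Fintype β] (A : Matrix α β ℤ) {a : ℝ} (ha : 1 ≤ a)
    (hA : ∀ i j, |(A i j : ℝ)| ≤ a) (h0 : 0 < Fintype.card α)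
    (hc : 2 * Fintype.card α ≤ Fintype.card β) :
    ∃ t : β → ℤ, t ≠ 0 ∧ A.mulVec t = 0 ∧ ∀ j, |(t j : ℝ)| ≤ Fintype.card β * a := by
  obtain ⟨t, h1, h2, h3⟩ := Int.Matrix.exists_ne_zero_int_vec_norm_le A (by omega) h0
  refine ⟨t, h1, h2, fun j => ?_⟩
  have hn : ‖A‖ ≤ a := (Matrix.norm_le_iff (by linarith)).2 fun i j => by
    rw [Int.norm_eq_abs]; exact hA i j
  have hβ : (1 : ℝ) ≤ Fintype.card β := by exact_mod_cast (by omega : 1 ≤ Fintype.card β)
  have hc' : (2 * Fintype.card α : ℝ) ≤ Fintype.card β := by exact_mod_cast hc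
  have h0' : (0 : ℝ) < Fintype.card α := by exact_mod_cast h0
  have h4 : (Fintype.card α : ℝ) / (Fintype.card β - Fintype.card α) ≤ 1 := by
    rw [div_le_one (by linarith)]; linarith
  rw [← Int.norm_eq_abs]
  refine (norm_le_pi_norm t j).trans (h3.trans ?_)
  have h5 : (1 : ℝ) ≤ Fintype.card β * max 1 ‖A‖ := one_le_mul_of_one_le_of_one_le hβ (by simp)
  refine (Real.rpow_le_rpow_of_exponent_le h5 h4).trans ?_
  rw [Real.rpow_one]
  gcongr
  exact max_le ha hn

theorem geom_le {s : ℝ} (hs : 0 < s) (n : ℕ) :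
    ∑ k ∈ range n, Real.exp (-s) ^ k ≤ 1 + 1 / s := by
  have h1 : Real.exp (-s) * (1 + s) ≤ 1 := by
    rw [Real.exp_neg, inv_mul_le_iff₀ (Real.exp_pos _)]
    linarith [Real.add_one_le_exp s]
  induction n with
  | zero => simp; positivity
  | succ n ih =>
    rw [sum_range_succ', pow_zero, add_comm]
    simp only [pow_succ, ← sum_mul]
    have h2 : (1 + 1 / s) * Real.exp (-s) ≤ 1 / s := by
      rw [le_div_iff₀ hs]
      refine le_trans (le_of_eq ?_) h1
      field_simp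
      ring
    have := mul_le_mul_of_nonneg_right ih (Real.exp_pos (-s)).le
    linarith

/-- exponent vectors in a box -/
def box (r : σ → ℕ) : Finset (σ → ℕ) := Fintype.piFinset fun i => range (r i + 1)

theorem mem_box {r ν : σ → ℕ} : ν ∈ box r ↔ ∀ i, ν i ≤ r i := by
  simp [box]

theorem card_box (r : σ → ℕ) : (box r).card = ∏ i, (r i + 1) := by simp [box]

/-- few exponent vectors have small weight -/
theorem count {r w : σ → ℕ} {E T : ℕ} (hE : 0 < E) (hw : ∀ i, 0 < w i)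
    (h1 : ∀ i, E ≤ w i * (r i + 1)) (h2 : ∀ i, 8 ≤ r i + 1) (h3 : 16 * T ≤ Fintype.card σ * E) :
    ((box r).filter fun μ => ∑ i, w i * μ i < T).card * 2 ^ Fintype.card σ ≤ (box r).card := by
  have E0 : (0 : ℝ) < E := by exact_mod_cast hE
  have a1 : (((box r).filter fun μ => ∑ i, w i * μ i < T).card : ℝ) ≤
      ∑ μ ∈ box r, Real.exp (8 * T / E) * ∏ i, Real.exp (-(8 * w i / E)) ^ μ i := by
    rw [card_eq_sum_ones, Nat.cast_sum]
    refine (sum_le_sum fun μ hμ => ?_).trans (sum_le_sum_of_subset_of_nonneg (filter_subset _ _)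
      fun _ _ _ => by positivity)
    simp only [← Real.exp_nat_mul, ← Real.exp_sum, ← Real.exp_add, Nat.cast_one]
    refine Real.one_le_exp ?_
    have : ((∑ i, w i * μ i : ℕ) : ℝ) ≤ T := by exact_mod_cast (mem_filter.1 hμ).2.le
    have e : ∑ i, (μ i : ℝ) * -(8 * w i / E) = -(8 * ((∑ i, w i * μ i : ℕ) : ℝ) / E) := by
      push_cast
      rw [mul_sum, sum_div, ← sum_neg_distrib]
      exact sum_congr rfl fun i _ => by ring
    rw [e, ← sub_eq_add_neg, sub_nonneg]
    gcongr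
  have a2 : ∀ i, ∑ k ∈ range (r i + 1), Real.exp (-(8 * w i / E)) ^ k ≤ ((r i + 1 : ℕ) : ℝ) / 4 :=
    fun i => by
    have w0 : (0 : ℝ) < w i := by exact_mod_cast hw i
    refine (geom_le (by positivity) _).trans ?_
    have b1 : (E : ℝ) ≤ w i * ((r i + 1 : ℕ) : ℝ) := by exact_mod_cast h1 i
    have b2 : (8 : ℝ) ≤ ((r i + 1 : ℕ) : ℝ) := by exact_mod_cast h2 i
    have b3 : 1 / (8 * w i / E : ℝ) ≤ ((r i + 1 : ℕ) : ℝ) / 8 := by
      rw [one_div_div, div_le_div_iff₀ (by positivity) (by positivity)]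
      linarith
    linarith
  have a3 : Real.exp (8 * T / E) ≤ 2 ^ Fintype.card σ := by
    have b1 : (16 * T : ℝ) ≤ Fintype.card σ * E := by exact_mod_cast h3
    have b2 : (8 * T / E : ℝ) ≤ Fintype.card σ * Real.log 2 := by
      rw [div_le_iff₀ E0]
      have : (0 : ℝ) ≤ Fintype.card σ * E := by positivity
      nlinarith [Real.log_two_gt_d9]
    refine (Real.exp_le_exp.2 b2).trans (le_of_eq ?_)
    rw [Real.exp_nat_mul, Real.exp_log two_pos]
  rw [← mul_sum, box, ← prod_univ_sum] at a1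
  have a4 := a1.trans (mul_le_mul a3 (prod_le_prod (fun i _ => by positivity) fun i _ => a2 i)
    (prod_nonneg fun i _ => by positivity) (by positivity))
  rw [prod_div_distrib, prod_const, card_univ, ← Nat.cast_prod, ← card_box, ← box] at a4
  have a5 := mul_le_mul_of_nonneg_right a4 (by positivity : (0 : ℝ) ≤ 2 ^ Fintype.card σ)
  have a6 : (2 : ℝ) ^ Fintype.card σ * (((box r).card : ℝ) / 4 ^ Fintype.card σ) *
      2 ^ Fintype.card σ = (box r).card := by
    rw [show (4 : ℝ) = 2 * 2 by norm_num, mul_pow]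
    field_simp
  exact_mod_cast a5.trans a6.le

/-- the polynomial with prescribed coefficients on a box -/
def mk (r : σ → ℕ) (t : box r → ℤ) : MvPolynomial σ ℚ :=
  ∑ ν : box r, monomial (Finsupp.equivFunOnFinite.symm ν.1) (t ν : ℚ)

theorem coeff_mk (r : σ → ℕ) (t : box r → ℤ) (ν : box r) :
    coeff (Finsupp.equivFunOnFinite.symm ν.1) (mk r t) = t ν := by
  rw [mk, coeff_sum, sum_eq_single ν]
  · simp
  · intro μ _ h
    rw [coeff_monomial, if_neg]
    exact fun e => h (Subtype.ext (Finsupp.equivFunOnFinite.symm.injective e))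
  · simp

theorem mk_mem (r : σ → ℕ) (t : box r → ℤ) : mk r t ∈ ZP σ :=
  sum_mem fun ν _ => ⟨monomial _ (t ν), by rw [map_monomial]; rfl⟩

theorem mk_deg (r : σ → ℕ) (t : box r → ℤ) (i : σ) : degreeOf i (mk r t) ≤ r i := by
  refine (degreeOf_sum_le _ _ _).trans (Finset.sup_le fun ν _ => ?_)
  rw [degreeOf_le_iff]
  intro e he
  rw [mem_singleton.1 (support_monomial_subset he)]
  exact mem_box.1 ν.2 i

theorem mk_nr (r : σ → ℕ) (t : box r → ℤ) {c : ℝ} (h : ∀ ν, |(t ν : ℝ)| ≤ c) :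
    nr 1 (mk r t) ≤ (box r).card * c := by
  refine (nr_sum (fun _ => zero_le_one) _ _).trans ((sum_le_card_nsmul _ _ c fun ν _ => ?_).trans
    (by simp))
  simpa [nr_monomial] using h ν

/-- the auxiliary polynomial -/
theorem aux (S : Finset ℕ) (hS : S.Nonempty) (hc : 2 * S.card ≤ 2 ^ Fintype.card σ)
    {r w u : σ → ℕ} {E T : ℕ} (hE : 0 < E) (hT : 0 < T) (hw : ∀ i, 0 < w i)
    (h1 : ∀ i, E ≤ w i * (r i + 1)) (h2 : ∀ i, 8 ≤ r i + 1) (h3 : 16 * T ≤ Fintype.card σ * E)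
    {b : ℕ → σ → ℤ} (hb : ∀ p ∈ S, ∀ i, b p i ≠ 0) (hu : ∀ p ∈ S, ∀ i, |b p i| ≤ 2 ^ u i) :
    ∃ F : MvPolynomial σ ℚ, F ≠ 0 ∧ F ∈ ZP σ ∧ (∀ i, degreeOf i F ≤ r i) ∧
      nr 1 F ≤ 2 ^ (∑ i, (u i + 3) * r i) ∧ ∀ p ∈ S, ∀ ν, Finsupp.weight w ν < T →
        coeff ν (sh (fun i => 1 / (b p i : ℚ)) F) = 0 := by
  set I := (box r).filter fun μ => ∑ i, w i * μ i < T with eI
  have c1 : I.card * 2 ^ Fintype.card σ ≤ (box r).card := count hE hw h1 h2 h3
  have one : ∀ i, (1 : ℝ) ≤ 2 ^ u i := fun i => one_le_pow₀ one_le_two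
  obtain ⟨t, t0, t1, t2⟩ := siegel
    (Matrix.of fun (x : ↥(S ×ˢ I)) (ν : box r) => ent r (b x.1.1) x.1.2 ν.1)
    (a := ∏ i, (2 * 2 ^ u i) ^ r i)
    (one_le_prod fun i _ => one_le_pow₀ (by linarith [one i]))
    (fun x ν => ent_le one (fun i => by exact_mod_cast hu _ (mem_product.1 x.2).1 i) _
      (mem_box.1 ν.2))
    (by
      rw [Fintype.card_coe, card_pos]
      exact hS.product ⟨0, by simp [eI, mem_box, hT]⟩)
    (by
      rw [Fintype.card_coe, Fintype.card_coe, card_product]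
      refine le_trans ?_ c1
      rw [← mul_assoc, mul_comm]
      exact Nat.mul_le_mul_left _ hc)
  refine ⟨mk r t, fun h => t0 (funext fun ν => ?_), mk_mem r t, mk_deg r t,
    (mk_nr r t t2).trans ?_, fun p hp ν hν => ?_⟩
  · have := coeff_mk r t ν
    rw [h, coeff_zero] at this
    exact_mod_cast this.symm
  · have e : ((box r).card : ℝ) ≤ ∏ i, 2 ^ r i := by
      rw [card_box]
      exact_mod_cast prod_le_prod' fun i _ => Nat.lt_two_pow_self
    rw [Fintype.card_coe, ← prod_pow_eq_pow_sum]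
    refine (mul_le_mul e (mul_le_mul_of_nonneg_right e (by positivity)) (by positivity)
      (by positivity)).trans (le_of_eq ?_)
    rw [← prod_mul_distrib, ← prod_mul_distrib]
    exact prod_congr rfl fun i _ => by rw [pow_mul, ← mul_pow, ← mul_pow]; congr 1; ring
  · have e : coeff ν (sh (fun i => 1 / (b p i : ℚ)) (mk r t)) * ∏ i, (b p i : ℚ) ^ r i =
        ((∑ x : box r, ent r (b p) ν x.1 * t x : ℤ) : ℚ) := by
      rw [mk, map_sum, coeff_sum, sum_mul]
      push_cast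
      refine sum_congr rfl fun x _ => ?_
      rw [coeff_sh_monomial, mul_assoc, mul_comm]
      congr 1
      exact ent_eq (hb p hp) ν (mem_box.1 x.2)
    have e0 : ∑ x : box r, ent r (b p) ν x.1 * t x = 0 := by
      by_cases hr : ∀ i, ν i ≤ r i
      · exact congrFun t1 ⟨(p, ν), mem_product.2 ⟨hp, mem_filter.2
          ⟨mem_box.2 hr, by rwa [← weight_eq]⟩⟩⟩
      · obtain ⟨i, hi⟩ := not_forall.1 hr
        refine sum_eq_zero fun x _ => ?_
        rw [ent, prod_eq_zero (mem_univ i), zero_mul]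
        rw [Nat.choose_eq_zero_of_lt ((mem_box.1 x.2 i).trans_lt (not_le.1 hi))]
        simp
    rw [e0, Int.cast_zero] at e
    exact (mul_eq_zero.1 e).resolve_right
      (prod_ne_zero_iff.2 fun i _ => pow_ne_zero _ (Int.cast_ne_zero.2 (hb p hp i)))

end

end Pool.Agent.Lib.MP_343319_al.Rid
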