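import Pool.Agent.Lib.MP_5591bc_ag.RRoth

/-! Taylor coefficients of integer polynomials at rational points: `p`-adic and real bounds. -/

namespace Pool.Agent.Lib.MP_343319_al.Rid

open MvPolynomial Finset Pool.Agent.Lib.MP_5591bc_ag.R

noncomputable section

variable {σ : Type*} [Fintype σ]

theorem prod_monomial_single (k : σ → ℕ) (c : σ → ℚ) :
    ∏ i, (monomial (Finsupp.single i (k i)) (c i) : MvPolynomial σ ℚ) =
      monomial (Finsupp.equivFunOnFinite.symm k) (∏ i, c i) := by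
  classical
  rw [monomial_eq, Finsupp.prod_fintype _ _ (by simp), map_prod, ← prod_mul_distrib]
  exact prod_congr rfl fun i _ => by rw [← C_mul_X_pow_eq_monomial]; rfl

theorem coeff_sh_monomial (ξ : σ → ℚ) (μ ν : σ →₀ ℕ) (a : ℚ) :
    coeff μ (sh ξ (monomial ν a)) = a * ∏ i, ((ν i).choose (μ i) : ℚ) * ξ i ^ (ν i - μ i) := by
  classical
  have e : ∀ i, (X i + C (ξ i) : MvPolynomial σ ℚ) ^ ν i = ∑ k ∈ range (ν i + 1),
      monomial (Finsupp.single i k) (((ν i).choose k : ℚ) * ξ i ^ (ν i - k)) := fun i => by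
    rw [add_pow]
    refine sum_congr rfl fun k _ => ?_
    rw [← C_mul_X_pow_eq_monomial, map_mul, map_pow, map_natCast]; ring
  rw [sh, aeval_monomial, Finsupp.prod_fintype _ _ (by simp), algebraMap_eq, coeff_C_mul]
  congr 1
  simp only [e, prod_univ_sum, prod_monomial_single, coeff_sum, coeff_monomial]
  rw [sum_eq_single (μ : σ → ℕ)]
  · simp
  · intro k _ hk
    rw [if_neg]
    rintro rfl
    exact hk rfl
  · intro h
    simp only [Fintype.mem_piFinset, mem_range, not_forall, not_lt] at h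
    obtain ⟨i, hi⟩ := h
    rw [prod_eq_zero (mem_univ i) (by rw [Nat.choose_eq_zero_of_lt hi]; simp)]
    simp

theorem coeff_sh (ξ : σ → ℚ) (μ : σ →₀ ℕ) (f : MvPolynomial σ ℚ) : coeff μ (sh ξ f) =
    ∑ ν ∈ f.support, coeff ν f * ∏ i, ((ν i).choose (μ i) : ℚ) * ξ i ^ (ν i - μ i) := by
  conv_lhs => rw [f.as_sum, map_sum, coeff_sum]
  simp only [coeff_sh_monomial]

omit [Fintype σ] in
theorem sh_sh (ξ α : σ → ℚ) (f : MvPolynomial σ ℚ) :
    sh (fun i => ξ i - α i) (sh α f) = sh ξ f := by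
  induction f using MvPolynomial.induction_on with
  | C a => simp [sh]
  | add p q hp hq => simp only [map_add, hp, hq]
  | mul_X p j hp =>
    simp only [map_mul, hp]
    congr 1
    simp [sh, add_assoc]

theorem weight_eq (w : σ → ℕ) (ν : σ →₀ ℕ) : Finsupp.weight w ν = ∑ i, w i * ν i := by
  rw [Finsupp.weight_apply, Finsupp.sum_fintype _ _ (by simp)]
  simp [mul_comm]

section padic
variable {p : ℕ} [Fact p.Prime]

theorem term_le {a : ℚ} (ha : ‖(a : ℚ_[p])‖ ≤ 1) {δ : σ → ℚ} {ρ : σ → ℝ}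
    (h : ∀ i, ‖(δ i : ℚ_[p])‖ ≤ ρ i) (μ ν : σ →₀ ℕ) :
    ‖((a * ∏ i, ((ν i).choose (μ i) : ℚ) * δ i ^ (ν i - μ i) : ℚ) : ℚ_[p])‖ ≤
      ∏ i, ρ i ^ (ν i - μ i) := by
  push_cast
  rw [norm_mul, norm_prod]
  refine (mul_le_of_le_one_left (prod_nonneg fun _ _ => norm_nonneg _) ha).trans
    (prod_le_prod (fun _ _ => norm_nonneg _) fun i _ => ?_)
  rw [norm_mul, norm_pow]
  exact (mul_le_of_le_one_left (by positivity) (IsUltrametricDist.norm_natCast_le_one _ _)).trans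
    (pow_le_pow_left₀ (norm_nonneg _) (h i) _)

theorem sum_le {α : Type*} {s : Finset α} {f : α → ℚ} {c : ℝ} (hc : 0 ≤ c)
    (h : ∀ a ∈ s, ‖(f a : ℚ_[p])‖ ≤ c) : ‖((∑ a ∈ s, f a : ℚ) : ℚ_[p])‖ ≤ c := by
  rw [Rat.cast_sum]
  exact IsUltrametricDist.norm_sum_le_of_forall_le_of_nonneg hc h

/-- the `p`-adic bound for a Taylor coefficient near a point of high vanishing -/
theorem loc {F : MvPolynomial σ ℚ} (hF : F ∈ ZP σ) {ξ α : σ → ℚ} {w : σ → ℕ} {T : ℕ} {t : ℝ}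
    (t0 : 0 ≤ t) (t1 : t ≤ 1) (hα : ∀ i, ‖(α i : ℚ_[p])‖ ≤ 1)
    (h : ∀ i, ‖((ξ i - α i : ℚ) : ℚ_[p])‖ ≤ t ^ w i)
    (hv : ∀ ν, Finsupp.weight w ν < T → coeff ν (sh α F) = 0) (μ : σ →₀ ℕ) :
    ‖((coeff μ (sh ξ F) : ℚ) : ℚ_[p])‖ ≤ t ^ (T - Finsupp.weight w μ) := by
  have h1 : ∀ ν, ‖((coeff ν (sh α F) : ℚ) : ℚ_[p])‖ ≤ 1 := fun ν => by
    rw [coeff_sh]
    refine sum_le zero_le_one fun a _ => (term_le ?_ hα _ _).trans (by simp)
    obtain ⟨z, hz⟩ := mem_ZP.1 hF a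
    rw [hz, Rat.cast_intCast]
    exact IsUltrametricDist.norm_intCast_le_one _ _
  rw [← sh_sh ξ α, coeff_sh]
  refine sum_le (by positivity) fun ν hν => (term_le (h1 ν) h _ _).trans ?_
  have h2 : T ≤ Finsupp.weight w ν := not_lt.1 fun hlt => mem_support_iff.1 hν (hv ν hlt)
  simp only [← pow_mul, prod_pow_eq_pow_sum]
  refine pow_le_pow_of_le_one t0 t1 (tsub_le_iff_right.2 (h2.trans ?_))
  rw [weight_eq, weight_eq, ← sum_add_distrib]
  exact sum_le_sum fun i _ => by rw [← mul_add]; exact Nat.mul_le_mul_left _ le_tsub_add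

end padic

/-- the integer `b ^ r` times the Taylor coefficient of the monomial `ν` at the point `1 / b` -/
def ent (r : σ → ℕ) (b : σ → ℤ) (μ ν : σ → ℕ) : ℤ :=
  ∏ i, ((ν i).choose (μ i) : ℤ) * b i ^ (r i - (ν i - μ i))

theorem ent_eq {r : σ → ℕ} {b : σ → ℤ} (hb : ∀ i, b i ≠ 0) (μ : σ → ℕ) {ν : σ → ℕ}
    (h : ∀ i, ν i ≤ r i) : (∏ i, ((ν i).choose (μ i) : ℚ) * (1 / (b i : ℚ)) ^ (ν i - μ i)) *
      ∏ i, (b i : ℚ) ^ r i = ent r b μ ν := by
  rw [ent, ← prod_mul_distrib]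
  push_cast
  refine prod_congr rfl fun i _ => ?_
  have h0 : (b i : ℚ) ≠ 0 := Int.cast_ne_zero.2 (hb i)
  rw [pow_sub₀ _ h0 ((Nat.sub_le _ _).trans (h i)), one_div, inv_pow]
  ring

theorem ent_le {r : σ → ℕ} {b : σ → ℤ} {B : σ → ℝ} (hB : ∀ i, 1 ≤ B i) (hb : ∀ i, |(b i : ℝ)| ≤ B i)
    (μ : σ → ℕ) {ν : σ → ℕ} (h : ∀ i, ν i ≤ r i) : |(ent r b μ ν : ℝ)| ≤ ∏ i, (2 * B i) ^ r i := by
  rw [ent]
  push_cast
  rw [abs_prod]
  refine prod_le_prod (fun _ _ => abs_nonneg _) fun i _ => ?_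
  rw [abs_mul, abs_pow, mul_pow, Nat.abs_cast]
  refine mul_le_mul ?_ ((pow_le_pow_left₀ (abs_nonneg _) (hb i) _).trans
    (pow_le_pow_right₀ (hB i) (Nat.sub_le _ _))) (by positivity) (by positivity)
  exact_mod_cast (Nat.choose_le_two_pow _ _).trans (Nat.pow_le_pow_right two_pos (h i))

theorem coeff_sh_ent {r : σ → ℕ} {b : σ → ℤ} (hb : ∀ i, b i ≠ 0) {F : MvPolynomial σ ℚ}
    (hd : ∀ i, degreeOf i F ≤ r i) (μ : σ →₀ ℕ) :
    coeff μ (sh (fun i => 1 / (b i : ℚ)) F) * ∏ i, (b i : ℚ) ^ r i =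
      ∑ ν ∈ F.support, coeff ν F * ent r b μ ν := by
  rw [coeff_sh, sum_mul]
  exact sum_congr rfl fun ν hν => by
    rw [mul_assoc, ent_eq hb μ fun i => (monomial_le_degreeOf i hν).trans (hd i)]

/-- the cleared Taylor coefficient is an integer of controlled size -/
theorem glob {r : σ → ℕ} {b : σ → ℤ} {B : σ → ℝ} (hb : ∀ i, b i ≠ 0) (hB : ∀ i, 1 ≤ B i)
    (hb' : ∀ i, |(b i : ℝ)| ≤ B i) {F : MvPolynomial σ ℚ} (hF : F ∈ ZP σ)
    (hd : ∀ i, degreeOf i F ≤ r i) (μ : σ →₀ ℕ) :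
    ∃ A : ℤ, coeff μ (sh (fun i => 1 / (b i : ℚ)) F) * ∏ i, (b i : ℚ) ^ r i = A ∧
      |(A : ℝ)| ≤ nr 1 F * ∏ i, (2 * B i) ^ r i := by
  choose z hz using mem_ZP.1 hF
  refine ⟨∑ ν ∈ F.support, z ν * ent r b μ ν, ?_, ?_⟩
  · rw [coeff_sh_ent hb hd]; push_cast; simp only [hz]
  · push_cast
    rw [nr, sum_mul]
    refine (abs_sum_le_sum_abs _ _).trans (sum_le_sum fun ν hν => ?_)
    simp only [Pi.one_apply, one_pow, prod_const_one, mul_one, hz, Rat.cast_intCast, abs_mul]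
    exact mul_le_mul_of_nonneg_left
      (ent_le hB hb' μ fun i => (monomial_le_degreeOf i hν).trans (hd i)) (abs_nonneg _)

/-- the product formula, as an inequality -/
theorem prod_formula (S : Finset ℕ) (hS : ∀ p ∈ S, p.Prime) {A : ℤ} (hA : A ≠ 0) :
    1 ≤ |(A : ℝ)| * ∏ p ∈ S, ((padicNorm p A : ℚ) : ℝ) := by
  have h1 : ∏ p ∈ S, (p : ℤ) ^ padicValInt p A ∣ A := by
    refine Finset.prod_dvd_of_coprime (fun p hp q hq hne => ?_) fun p _ => padicValInt_dvd A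
    exact IsCoprime.pow (Nat.isCoprime_iff_coprime.2 ((Nat.coprime_primes (hS p hp) (hS q hq)).2 hne))
  have h2 : ∏ p ∈ S, (p : ℝ) ^ padicValInt p A ≤ |(A : ℝ)| := by
    exact_mod_cast Int.le_of_dvd (abs_pos.2 hA) ((dvd_abs _ _).2 h1)
  refine le_trans (le_of_eq ?_) (mul_le_mul_of_nonneg_right h2
    (prod_nonneg fun p _ => by exact_mod_cast padicNorm.nonneg _))
  rw [← prod_mul_distrib]
  refine (prod_eq_one fun p hp => ?_).symm
  have h0 : (p : ℝ) ≠ 0 := Nat.cast_ne_zero.2 (hS p hp).ne_zero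
  rw [padicNorm.eq_zpow_of_nonzero (Int.cast_ne_zero.2 hA), padicValRat.of_int]
  push_cast
  rw [zpow_neg, zpow_natCast, mul_inv_cancel₀ (pow_ne_zero _ h0)]

end

end Pool.Agent.Lib.MP_343319_al.Rid
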